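import Mathlib
import Pool.Agent.H51.CST.Targets

/-!
# Points on plane curves over finite fields: the auxiliary function at one point
-/

set_option autoImplicit false

open Polynomial

namespace Pool.Agent.H46.CST

open Pool.Agent.H51.CST

noncomputable section

theorem pf_ZE1 (hMU2 : T_MU2) : T_ZE1 := by
  intro k _ _ K _ _ d e D Del r M A B a x0 β hd he hM hr0 hrM hPsi hDel hβ hβq
  haveI : Fintype k := Fintype.ofFinite k
  have hcard : Nat.card k = Fintype.card k := Nat.card_eq_fintype_card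
  set q : ℕ := Nat.card k with hq
  -- the characteristic
  obtain ⟨p, hpk, n, hp, hpn⟩ := FiniteField.card' k
  haveI : Fact p.Prime := ⟨hp⟩
  haveI : CharP K p := charP_of_injective_algebraMap (algebraMap k K).injective p
  have hqp : q = p ^ (n : ℕ) := by rw [hcard, hpn]
  have hkq : ∀ c : k, c ^ q = c := fun c => by rw [hcard]; exact FiniteField.pow_card c
  -- the specialisation of the first variable
  set f : k[X] →+* K := (algebraMap k K).comp (evalRingHom x0) with hf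
  have hev : ∀ g : k[X][X], ∀ b : K, g.eval₂ f b = aeval b (at0 g x0) := by
    intro g b
    rw [at0, aeval_def, eval₂_map]
  have hmu : D.mu.eval₂ f β = 0 := by rw [hev, hβ]
  set θ : AdjoinRoot D.mu →+* K := AdjoinRoot.lift f β hmu with hθ
  have hθof : θ.comp (AdjoinRoot.of D.mu) = f := AdjoinRoot.lift_comp_of hmu
  have hθof' : ∀ g : k[X], θ (AdjoinRoot.of D.mu g) = f g := fun g => AdjoinRoot.lift_of hmu
  have hθx : θ (xR D.mu) = algebraMap k K x0 := by
    rw [xR, hθof', hf]; simp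
  have hθy : θ (yR D.mu) = β := AdjoinRoot.lift_root hmu
  -- the second root
  have hmuq : D.mu.eval₂ f (β ^ q) = 0 := by
    rw [hev]
    have h : (at0 D.mu x0).eval₂ (algebraMap k K) (β ^ q) =
        ((at0 D.mu x0).eval₂ (algebraMap k K) β) ^ q := by
      have := map_aeval_eq_aeval_map (R := k) (S := K)
        (T := k) (U := K) (φ := RingHom.id k) (ψ := iterateFrobenius K p n) ?_
        (at0 D.mu x0) β
      · rw [map_id] at this
        rw [aeval_def, aeval_def, iterateFrobenius_def, iterateFrobenius_def, ← hqp] at this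
        exact this.symm
      · ext c
        simp only [RingHom.comp_apply, RingHom.id_apply, iterateFrobenius_def]
        rw [← hqp, ← map_pow, hkq]
    rw [aeval_def, h, ← aeval_def, hβ, zero_pow]
    rw [hqp]
    exact pow_ne_zero _ hp.ne_zero
  obtain ⟨hm1, -, -, -⟩ := hMU2 k d e D hd he
  have hmu2 : (mu2 D.mu).eval₂ θ (β ^ q) = 0 := by
    have h := congrArg (fun g => g.eval₂ θ (β ^ q)) hm1
    simp only [eval₂_mul, eval₂_sub, eval₂_X, eval₂_C, eval₂_map, hθof, hmuq, hθy] at h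
    exact (mul_eq_zero.1 h).resolve_left (sub_ne_zero.2 hβq)
  set θ2 : R2 D.mu →+* K := AdjoinRoot.lift θ (β ^ q) hmu2 with hθ2
  have hθ2of : θ2.comp (AdjoinRoot.of (mu2 D.mu)) = θ := AdjoinRoot.lift_comp_of hmu2
  have hθ2of' : ∀ g, θ2 (AdjoinRoot.of (mu2 D.mu) g) = θ g := fun g => AdjoinRoot.lift_of hmu2
  have hθ2x : θ2 (x2 D.mu) = algebraMap k K x0 := by rw [x2, hθ2of', hθx]
  have hθ2z : θ2 (z2 D.mu) = β ^ q := AdjoinRoot.lift_root hmu2
  have hθk : ∀ c : k, θ (algebraMap k (AdjoinRoot D.mu) c) = algebraMap k K c := by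
    intro c
    have : algebraMap k (AdjoinRoot D.mu) c = AdjoinRoot.of D.mu (C c) := rfl
    rw [this, hθof', hf]; simp
  have hθ2k : ∀ c : k, θ2 (algebraMap k (R2 D.mu) c) = algebraMap k K c := by
    intro c
    have : algebraMap k (R2 D.mu) c =
      AdjoinRoot.of (mu2 D.mu) (algebraMap k (AdjoinRoot D.mu) c) := rfl
    rw [this, hθ2of', hθk]
  have hae : ∀ g : k[X], θ (aeval (xR D.mu) g) = algebraMap k K (g.eval x0) := by
    intro g
    rw [aeval_def, hom_eval₂, hθx]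
    have h : θ.comp (algebraMap k (AdjoinRoot D.mu)) = algebraMap k K := RingHom.ext hθk
    rw [h, eval₂_at_apply]
  have hae2 : ∀ g : k[X], θ2 (aeval (x2 D.mu) g) = algebraMap k K (g.eval x0) := by
    intro g
    rw [aeval_def, hom_eval₂, hθ2x]
    have h : θ2.comp (algebraMap k (R2 D.mu)) = algebraMap k K := RingHom.ext hθ2k
    rw [h, eval₂_at_apply]
  set δ : K := algebraMap k K (Del.eval x0) with hδ
  have hδ0 : δ ≠ 0 := by
    rw [hδ, Ne, map_eq_zero]; exact hDel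
  set c : K := (δ ^ 2)⁻¹ with hc
  have hδc : C (δ ^ 2) * C c = (1 : K[X]) := by
    rw [← C_mul, hc, mul_inv_cancel₀ (pow_ne_zero 2 hδ0), C_1]
  -- the substitutions
  set L : (AdjoinRoot D.mu)[X] →+* K[X] := eval₂RingHom (C.comp θ) (C c * X) with hL
  set L2 : (R2 D.mu)[X] →+* K[X] := eval₂RingHom (C.comp θ2) (C c * X) with hL2
  have hLC : ∀ u, L (C u) = C (θ u) := fun u => by simp [hL]
  have hLX : L X = C c * X := by simp [hL]
  have hL2C : ∀ u, L2 (C u) = C (θ2 u) := fun u => by simp [hL2]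
  have hL2X : L2 X = C c * X := by simp [hL2]
  set x0K : K := algebraMap k K x0 with hx0K
  set Sx : k[X] →+* K[X] := (aeval (C x0K + X : K[X]) : k[X] →ₐ[k] K[X]).toRingHom with hSx
  have hSxC : ∀ u : k, Sx (C u) = C (algebraMap k K u) := by
    intro u
    show aeval (C x0K + X : K[X]) (C u) = _
    rw [aeval_C]; rfl
  have hSxX : Sx X = C x0K + X := by
    show aeval (C x0K + X : K[X]) (X : k[X]) = _
    rw [aeval_X]
  have hLSh : L.comp (Sh D.mu Del).toRingHom = Sx := by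
    apply Polynomial.ringHom_ext
    · intro u
      rw [hSxC]
      show L (aeval (C (xR D.mu) + C (aeval (xR D.mu) Del ^ 2) * X) (C u)) = _
      rw [aeval_C]
      have : algebraMap k (AdjoinRoot D.mu)[X] u = C (algebraMap k (AdjoinRoot D.mu) u) := rfl
      rw [this, hLC, hθk]
    · rw [hSxX]
      show L (aeval (C (xR D.mu) + C (aeval (xR D.mu) Del ^ 2) * X) (X : k[X])) = _
      rw [aeval_X, map_add, map_mul, hLC, hLC, hLX, map_pow, hae, hθx, ← mul_assoc, hδc, one_mul]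
  set r0 : K[X] := L r with hr
  have hL2r : L2 (r.map (AdjoinRoot.of (mu2 D.mu))) = r0 := by
    show eval₂ (C.comp θ2) (C c * X) (r.map (AdjoinRoot.of (mu2 D.mu))) =
      eval₂ (C.comp θ) (C c * X) r
    rw [eval₂_map, RingHom.comp_assoc, hθ2of]
  have hcoef : r0.coeff 0 = β := by
    rw [coeff_zero_eq_eval_zero, hr]
    show (eval₂ (C.comp θ) (C c * X) r).eval 0 = β
    rw [← coe_evalRingHom, hom_eval₂]
    have h1 : (evalRingHom (0 : K)).comp (C.comp θ) = θ := by
      ext u <;> simp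
    have h2 : evalRingHom (0 : K) (C c * X) = θ 0 := by simp
    rw [h1, h2, eval₂_at_apply, ← coeff_zero_eq_eval_zero, hr0, hθy]
  -- step 1
  have hstep1 : X ^ M ∣ (D.mu.map Sx).eval r0 := by
    obtain ⟨W, hW⟩ := hrM
    have h := congrArg L hW
    rw [map_mul, map_pow, hLX, mul_pow] at h
    have h2 : L ((D.mu.map (Sh D.mu Del).toRingHom).eval r) = (D.mu.map Sx).eval r0 := by
      rw [eval_map, hom_eval₂, hLSh, eval_map]
    rw [← h2, h]
    exact ⟨C c ^ M * L W, by ring⟩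
  refine ⟨r0, hcoef, ?_⟩
  -- step 2
  have hdiv : (Phi q a %ₘ D.mu) = Phi q a - D.mu * (Phi q a /ₘ D.mu) := by
    rw [eq_sub_iff_add_eq]; exact modByMonic_add_div _ _
  rw [hdiv, Polynomial.map_sub, Polynomial.map_mul, eval_sub, eval_mul]
  refine dvd_sub ?_ (Dvd.dvd.mul_right hstep1 _)
  -- step 3
  have hPsiM : X ^ M ∣ L2 (Psi D.mu Del r a) := by
    obtain ⟨W, hW⟩ := X_pow_dvd_iff.2 hPsi
    rw [hW, map_mul, map_pow, hL2X, mul_pow]
    exact ⟨C c ^ M * L2 W, by ring⟩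
  have hL2Psi : L2 (Psi D.mu Del r a) = ∑ s, C (algebraMap k K (a s)) *
      (C x0K + X) ^ (s.1 : ℕ) * r0 ^ (s.2.1 : ℕ) *
      (C x0K ^ (s.2.2.1 : ℕ) * C (β ^ q) ^ (s.2.2.2 : ℕ)) := by
    rw [Psi, map_sum]
    refine Finset.sum_congr rfl fun s _ => ?_
    have hx : L2 (C (x2 D.mu) + C (aeval (x2 D.mu) Del ^ 2) * X) = C x0K + X := by
      rw [map_add, map_mul, hL2C, hL2C, hL2X, map_pow θ2, hae2, hθ2x, ← mul_assoc, hδc, one_mul]
    rw [map_mul L2, map_mul L2, map_mul L2, map_pow L2, map_pow L2, hL2r, hL2C, hL2C, hθ2k, hx,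
      map_mul θ2, map_pow θ2, map_pow θ2, hθ2x, hθ2z, C_mul, C_pow, C_pow]
  have hPhi : ((Phi q a).map Sx).eval r0 = ∑ s, C (algebraMap k K (a s)) *
      (C x0K + X) ^ (s.1 : ℕ) * r0 ^ (s.2.1 : ℕ) *
      (((C x0K + X) ^ q) ^ (s.2.2.1 : ℕ) * (r0 ^ q) ^ (s.2.2.2 : ℕ)) := by
    rw [Phi, Polynomial.map_sum, eval_finset_sum]
    refine Finset.sum_congr rfl fun s _ => ?_
    rw [Polynomial.map_mul, Polynomial.map_pow, map_X, map_C, eval_mul, eval_pow, eval_X, eval_C,
      map_mul, map_pow, hSxC, hSxX, pow_add, pow_add, pow_mul, pow_mul]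
    ring
  have hqM : (X : K[X]) ^ M ∣ X ^ q := pow_dvd_pow X hM
  have hfr : ∀ u v : K[X], X ∣ u - v → X ^ M ∣ u ^ q - v ^ q := by
    intro u v huv
    have h : u ^ q - v ^ q = (u - v) ^ q := by
      rw [hqp, sub_pow_char_pow]
    rw [h]
    exact hqM.trans (pow_dvd_pow_of_dvd huv q)
  have hA : X ^ M ∣ (C x0K + X) ^ q - C x0K := by
    have h := hfr (C x0K + X) (C x0K) (by simp)
    have h2 : (C x0K : K[X]) ^ q = C x0K := by
      rw [← C_pow, hx0K, ← map_pow, hkq]
    rwa [h2] at h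
  have hB : X ^ M ∣ r0 ^ q - C (β ^ q) := by
    have h := hfr r0 (C β) (by
      rw [X_dvd_iff, coeff_sub, hcoef, coeff_C_zero, sub_self])
    rwa [← C_pow] at h
  have hmk : ∀ u v : K[X], X ^ M ∣ u - v →
      Ideal.Quotient.mk (Ideal.span {(X : K[X]) ^ M}) u =
        Ideal.Quotient.mk (Ideal.span {(X : K[X]) ^ M}) v := by
    intro u v h
    rw [Ideal.Quotient.eq, Ideal.mem_span_singleton]
    exact h
  rw [hL2Psi] at hPsiM
  rw [hPhi, ← Ideal.mem_span_singleton, ← Ideal.Quotient.eq_zero_iff_mem]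
  rw [← Ideal.mem_span_singleton, ← Ideal.Quotient.eq_zero_iff_mem] at hPsiM
  rw [← hPsiM, map_sum, map_sum]
  refine Finset.sum_congr rfl fun s _ => ?_
  rw [map_mul, map_mul _ (_ * _) (C x0K ^ (s.2.2.1 : ℕ) * C (β ^ q) ^ (s.2.2.2 : ℕ)),
    map_mul _ (((C x0K + X) ^ q) ^ (s.2.2.1 : ℕ)), map_mul _ (C x0K ^ (s.2.2.1 : ℕ)),
    map_pow _ ((C x0K + X) ^ q), map_pow _ (r0 ^ q), map_pow _ (C x0K), map_pow _ (C (β ^ q)),
    hmk _ _ hA, hmk _ _ hB]

end

end Pool.Agent.H46.CST
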